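import Pool.Agent.Lib.H41.IFS.Main

/-!
# Every Peano continuum is a topological IFS-attractor

A Peano continuum is a nonempty compact, connected, locally connected metrizable space. The theorem
`result` below shows that every Peano continuum (of any dimension) is a topological IFS-attractor:
there are finitely many continuous self-maps whose images cover the space and such that for every
open cover all sufficiently long compositions have images contained in a member of the cover.
-/

namespace Pool.Agent.Results.MP_e1c365_gt.PeanoAttractor

open Set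

/-- The composition `g 0 ∘ g 1 ∘ ... ∘ g (m - 1)` of finitely many self-maps. -/
def comp {X : Type*} : (m : ℕ) → (Fin m → X → X) → X → X
  | 0, _ => id
  | m + 1, g => g 0 ∘ comp m fun i => g i.succ

/-- A topological space `X` is a topological IFS-attractor if there are finitely many continuous
maps `f 0, ..., f (n - 1) : X → X` such that
1. `X` is the union of the images of the maps `f i`, and
2. for every open cover `𝒰` of `X` there is `m` such that for every choice
   `g 0, ..., g (m - 1)` among the maps `f i` the image `(g 0 ∘ ... ∘ g (m - 1)) (X)` is contained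
   in a single member of `𝒰`. -/
def IsTopologicalIFSAttractor (X : Type*) [TopologicalSpace X] : Prop :=
  ∃ (n : ℕ) (f : Fin n → X → X), (∀ i, Continuous (f i)) ∧ (⋃ i, range (f i)) = univ ∧
    ∀ 𝒰 : Set (Set X), (∀ U ∈ 𝒰, IsOpen U) → ⋃₀ 𝒰 = univ →
      ∃ m : ℕ, ∀ g : Fin m → X → X, (∀ k, g k ∈ range f) → ∃ U ∈ 𝒰, range (comp m g) ⊆ U

theorem comp_eq {X : Type*} [TopologicalSpace X] {n : ℕ} (f : Fin n → C(X, X)) (m : ℕ)
    (j : Fin m → Fin n) :
    comp m (fun k => (f (j k) : X → X)) = TopIFS.wordMap f (List.ofFn j) := by
  induction m with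
  | zero => rfl
  | succ m ih =>
    funext x
    rw [List.ofFn_succ]
    change f (j 0) (comp m (fun k => (f (j k.succ) : X → X)) x) = _
    rw [ih]
    rfl

/-- **Every Peano continuum is a topological IFS-attractor.** (A connected space is nonempty in
Mathlib.) -/
theorem result (X : Type*) [TopologicalSpace X] [CompactSpace X] [ConnectedSpace X]
    [LocallyConnectedSpace X] [TopologicalSpace.MetrizableSpace X] :
    IsTopologicalIFSAttractor X := by
  obtain ⟨n, f, hcov, h⟩ := TopIFS.attractor_of_peano X
  refine ⟨n, fun i => f i, fun i => (f i).continuous, hcov, fun 𝒰 hU hcU => ?_⟩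
  obtain ⟨m, hm⟩ := h 𝒰 hU hcU
  refine ⟨m, fun g hg => ?_⟩
  choose j hj using hg
  obtain ⟨U, hUU, hsub⟩ := hm (List.ofFn j) (by simp)
  refine ⟨U, hUU, ?_⟩
  have hg : g = fun k => (f (j k) : X → X) := funext fun k => (hj k).symm
  rw [hg, comp_eq]
  exact hsub

end Pool.Agent.Results.MP_e1c365_gt.PeanoAttractor
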